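import Pool.Agent.Helper617.FS.Mod5

/-!
There is a model of `RCA₀` in which the free set principle for pairs holds and the bounding
scheme for `Σ⁰₂` formulas fails. Hence `RCA₀ + FS(2)` does not prove `BΣ⁰₂`.

Outline. For a colouring `col` of the numbers by `r` bits, a finite set `Y` is called large of
level `n` by recursion on `r` and `n`: it must contain large sets of lower level after each of the
following moves of an opponent: a family of at most `min Y` functions on pairs (answer: a subset
free for all of them), a set of at most `min Y` points (answer: a subset inside one gap), a value
of the next bit (answer: a subset inside an interval on which the next bit of the colouring has
this value, large with respect to the remaining bits), and colourings of points and pairs by at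
most `min Y` colours (answer: a subset with few colours). Large intervals of all levels exist: the
corresponding infinite sets satisfy Ramsey and free set theorems (files `Comb1`, `Comb2`,
`Comb3`), and compactness gives the finite sets (`Comb4`, `Comb5`). In a countable nonstandard
model, given by codes of internal functions modulo an ultrafilter, start with a large interval of
nonstandard level and play the game against all internal opponents in `ω` steps. The numbers below
some lower bound of the sets obtained form a cut; with the traces of the internal sets this is a
model of `RCA₀` (`Mod4`) and of `FS(2)`, and the bits of the colouring give a map of the cut into a
bounded set all of whose fibres are bounded, so the bounding scheme fails (`Mod5`).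
-/

namespace Pool.Agent.Results.MP_3ec3f9_lc.FreeSetWithoutBounding

open Pool.Agent.Helper617.RM Pool.Agent.Helper617.FS

/-- **Main theorem.** There is a structure for second-order arithmetic which is a model of
`RCA₀` and of the free set principle for pairs `FS(2)`, and in which the bounding scheme
`BΣ⁰₂` fails. -/
theorem result : ∃ N : L2Structure.{0}, IsModelRCA0 N ∧ FreeSetPairs N ∧ ¬ SigmaTwoBounding N :=
  ⟨PP, isModel, freeSet, not_bounding⟩

end Pool.Agent.Results.MP_3ec3f9_lc.FreeSetWithoutBounding
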